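import Mathlib
import Pool.Agent.R516.MPD

set_option autoImplicit false

/-!
# Montgomery's `ℓ^q` inequality for polynomials supported on many short arithmetic progressions

For every `A ≥ 1` and `η > 0` there is `c > 0` such that the inequality of Q1 holds, without the loss `N^ε`, for all
`q ≥ 2`, all `T ≤ N^A` and all coefficients bounded by `1` supported on a union of arithmetic progressions `P_j` in
`[N, 2N]`, of differences `d_j` and lengths `L_j` with `d_j L_j^3 ≥ N^(1+η)` and `∑ L_j ≤ N^(1/2+c)`, and on any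
`N^(1/2)` further integers. For instance, on any set covered by `N^(1/6-η/3)` intervals of `N^((1+η)/3+c)`
consecutive integers.
-/

namespace Pool.Agent.Results.MP_2a1f0e_nt.ManyProgressions

open Finset

/-- `D(t) = ∑_{N ≤ n ≤ 2N} b_n n^{it}` -/
noncomputable def D (N : ℕ) (b : ℕ → ℂ) (t : ℝ) : ℂ :=
  ∑ n ∈ Icc N (2 * N), b n * Complex.exp (Complex.I * (t : ℂ) * (Real.log (n : ℝ) : ℂ))

/-- `n` lies in `E` or in one of the progressions `m_j, m_j + d_j, …, m_j + (L_j - 1) d_j`, `j ∈ J` -/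
def Supp (J : Finset ℕ) (m d L : ℕ → ℕ) (E : Finset ℕ) (n : ℕ) : Prop :=
  n ∈ E ∨ ∃ j ∈ J, ∃ i < L j, n = m j + d j * i

/-- the progressions lie in `[N, 2N]`, have at least two terms, `d_j L_j^3 ≥ N^(1+η)` for every `j ∈ J`,
`∑ L_j ≤ N^(1/2+c)`, and `E` has at most `N^(1/2)` elements -/
def Thin (N : ℕ) (η c : ℝ) (J : Finset ℕ) (m d L : ℕ → ℕ) (E : Finset ℕ) : Prop :=
  (∀ j ∈ J, N ≤ m j ∧ m j + d j * (L j - 1) ≤ 2 * N) ∧
    (∀ j ∈ J, 1 ≤ d j ∧ 2 ≤ L j ∧ (N : ℝ) ^ (1 + η) ≤ d j * (L j : ℝ) ^ 3) ∧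
    ∑ j ∈ J, (L j : ℝ) ≤ (N : ℝ) ^ (1 / 2 + c) ∧ (E.card : ℝ) ≤ (N : ℝ) ^ (1 / 2 : ℝ)

open Pool.Agent.R516.MP in
open Pool.Agent.R516.MS (lqForm triv) in
open Pool.Agent.TH705.DL (ph) in
/-- Let `A ≥ 1`, `0 < η ≤ 1`. There is `c > 0` such that for every `q ≥ 2` there is `C` with: for all `T ≤ N^A` and
all `|b_n| ≤ 1` supported in `[N, 2N]` on a union of progressions and on a set `E` satisfying `Thin`:
`∑_{1 ≤ t ≤ T} |D(t)|^q ≤ C (N^q + T N^(q/2))`. -/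
theorem result (A η : ℝ) (hA : 1 ≤ A) (hη : 0 < η) (hη1 : η ≤ 1) :
    ∃ c : ℝ, 0 < c ∧ ∀ q : ℝ, 2 ≤ q → ∃ C : ℝ, ∀ (N : ℕ) (J : Finset ℕ) (m d L : ℕ → ℕ) (E : Finset ℕ) (T : ℕ)
      (b : ℕ → ℂ), 1 ≤ N → Thin N η c J m d L E → (T : ℝ) ≤ (N : ℝ) ^ A → (∀ n, ‖b n‖ ≤ 1) →
      (∀ n ∈ Icc N (2 * N), b n ≠ 0 → Supp J m d L E n) →
      ∑ t ∈ Icc 1 T, ‖D N b (t : ℝ)‖ ^ q ≤ C * ((N : ℝ) ^ q + T * (N : ℝ) ^ (q / 2)) := by
  obtain ⟨c, C0, hc0, hC0, h⟩ := onTwo A η hA hη hη1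
  refine ⟨c, hc0, ?_⟩
  intro q hq
  refine ⟨2 ^ q * (2 * C0) + (2 * C0) ^ (q / 2), ?_⟩
  intro N J m d L E T b hN hBE hT hb hs
  obtain ⟨h1, h2, h3, h4⟩ := hBE
  exact lqForm hC0 hq N T hN (fun t => ‖∑ n ∈ Icc N (2 * N), b n * ph t n‖) (fun _ => norm_nonneg _)
    (fun t => triv N hN b hb t)
    (fun W hW hsep => h N J m d L E hN h1 h2 h3 h4 T W b hT hsep
      (fun t ht => ⟨(hW t ht).1, by linarith [(hW t ht).2]⟩) hs hb)

end Pool.Agent.Results.MP_2a1f0e_nt.ManyProgressions
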