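import Mathlib
import Pool.Agent.R327.SI2A

set_option autoImplicit false

/-!
# Montgomery's `ℓ^q` inequality for all polynomials supported on a short interval, `T ≤ N²`

The inequality of Q1 holds for all `q ≥ 2`, all `T ≤ N²` and all coefficients bounded by `1` which vanish outside
an interval of at most `N^(5/9)` consecutive integers of `[N, 2N]` (for `N^(1/2)` it is trivial).
-/

namespace Pool.Agent.Results.MP_2a1f0e_nt.ShortIntervals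

open Finset

/-- `D(t) = ∑_{N ≤ n ≤ 2N} b_n n^{it}` -/
noncomputable def D (N : ℕ) (b : ℕ → ℂ) (t : ℝ) : ℂ :=
  ∑ n ∈ Icc N (2 * N), b n * Complex.exp (Complex.I * (t : ℂ) * (Real.log (n : ℝ) : ℂ))

open Pool.Agent.R327.SI in
/-- Let `q ≥ 2`, `ε > 0`. For all `T ≤ N²`, `m ≥ N`, `L ≤ N^(5/9)` and all `|b_n| ≤ 1` whose support in `[N, 2N]`
is contained in `[m, m + L)`: `∑_{1 ≤ t ≤ T} |D(t)|^q ≤ C(q, ε) N^ε (N^q + T N^(q/2))`. -/
theorem result (q ε : ℝ) (hq : 2 ≤ q) (hε : 0 < ε) :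
    ∃ C : ℝ, ∀ (N m L T : ℕ) (b : ℕ → ℂ), 1 ≤ N → N ≤ m →
      (L : ℝ) ≤ (N : ℝ) ^ (5 / 9 : ℝ) → T ≤ N ^ 2 → (∀ n, ‖b n‖ ≤ 1) →
      (∀ n ∈ Icc N (2 * N), b n ≠ 0 → m ≤ n ∧ n < m + L) →
      ∑ t ∈ Icc 1 T, ‖D N b (t : ℝ)‖ ^ q ≤ C * (N : ℝ) ^ ε * ((N : ℝ) ^ q + T * (N : ℝ) ^ (q / 2)) := by
  obtain ⟨C0, hC0, h⟩ := goodI
  obtain ⟨C, hC⟩ := S2A.key (1 / 18) C0 q ε (by norm_num) le_rfl hC0 hq hε
  refine ⟨C, ?_⟩
  intro N m L T b hN hNm hL hT hb hs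
  have hN1 : (1 : ℝ) ≤ N := by exact_mod_cast hN
  refine hC N m 1 L T hN hNm le_rfl ?_ b hb ?_
  · intro hm
    have h1 := supp_len (2 * N) (2 * N) m 1 L hm le_rfl
    apply h N m _ hN hNm (by omega)
    · have h1 : ((min L ((2 * N - m) / 1 + 1) : ℕ) : ℝ) ≤ L := by exact_mod_cast min_le_left _ _
      have h2 : 0 ≤ (N : ℝ) ^ (5 / 9 : ℝ) := by positivity
      linarith
    · have h3 : (T : ℝ) ≤ (N : ℝ) ^ 2 := by exact_mod_cast hT
      have : 0 ≤ (N : ℝ) ^ 2 := by positivity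
      linarith
  · intro n hn hne
    have := hs n hn hne
    exact ⟨n - m, by omega, by omega⟩

end Pool.Agent.Results.MP_2a1f0e_nt.ShortIntervals
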