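import Mathlib
import Pool.Agent.R327.SI2A

set_option autoImplicit false

/-!
# Montgomery's `ℓ^q` inequality for all polynomials supported on a short arithmetic progression

For every `A ≥ 1` there is `c > 0` such that the inequality of Q1 holds for all `q ≥ 2`, all `T ≤ N^A` and all
coefficients bounded by `1` which vanish outside an arithmetic progression with at most `N^(1/2+c)` terms in
`[N, 2N]`, of any first term and any difference.
-/

namespace Pool.Agent.Results.MP_2a1f0e_nt.ShortProgressions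

open Finset

/-- `D(t) = ∑_{N ≤ n ≤ 2N} b_n n^{it}` -/
noncomputable def D (N : ℕ) (b : ℕ → ℂ) (t : ℝ) : ℂ :=
  ∑ n ∈ Icc N (2 * N), b n * Complex.exp (Complex.I * (t : ℂ) * (Real.log (n : ℝ) : ℂ))

open Pool.Agent.R327.SI in
/-- For every `A ≥ 1` there is `c > 0` such that for all `q ≥ 2`, `ε > 0` there is `C` with: for all `T ≤ N^A` and
all `|b_n| ≤ 1` whose support in `[N, 2N]` is contained in a progression `m, m + d, …, m + (L-1) d`, `m ≥ N`,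
`L ≤ N^(1/2+c)`: `∑_{1 ≤ t ≤ T} |D(t)|^q ≤ C N^ε (N^q + T N^(q/2))`. -/
theorem result (A : ℝ) (hA : 1 ≤ A) : ∃ c : ℝ, 0 < c ∧ ∀ q ε : ℝ, 2 ≤ q → 0 < ε →
    ∃ C : ℝ, ∀ (N m d L T : ℕ) (b : ℕ → ℂ), 1 ≤ N → N ≤ m → 1 ≤ d →
      (L : ℝ) ≤ (N : ℝ) ^ (1 / 2 + c) → (T : ℝ) ≤ (N : ℝ) ^ A → (∀ n, ‖b n‖ ≤ 1) →
      (∀ n ∈ Icc N (2 * N), b n ≠ 0 → ∃ j < L, n = m + d * j) →
      ∑ t ∈ Icc 1 T, ‖D N b (t : ℝ)‖ ^ q ≤ C * (N : ℝ) ^ ε * ((N : ℝ) ^ q + T * (N : ℝ) ^ (q / 2)) := by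
  obtain ⟨c, hc0, hc, C0, hC0, h⟩ := goodAP A hA
  refine ⟨c, hc0, ?_⟩
  intro q ε hq hε
  obtain ⟨C, hC⟩ := S2A.key c C0 q ε hc0.le (by linarith) hC0 hq hε
  refine ⟨C, ?_⟩
  intro N m d L T b hN hNm hd hL hT hb hs
  have hN1 : (1 : ℝ) ≤ N := by exact_mod_cast hN
  refine hC N m d L T hN hNm hd ?_ b hb hs
  intro hm
  apply h N m d _ hN hd hNm (supp_len (2 * N) (2 * N) m d L hm le_rfl)
  · have h1 : ((min L ((2 * N - m) / d + 1) : ℕ) : ℝ) ≤ L := by exact_mod_cast min_le_left _ _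
    have h2 : 0 ≤ (N : ℝ) ^ (1 / 2 + c) := by positivity
    linarith
  · exact hT.trans (Real.rpow_le_rpow (by linarith) (by linarith) (by linarith))

end Pool.Agent.Results.MP_2a1f0e_nt.ShortProgressions
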