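import Mathlib
import Pool.Agent.R516.MSE

set_option autoImplicit false

/-!
# Montgomery's `ℓ^q` inequality for polynomials supported on multiples of a sparse set, and on the integers `β d^k`

For every `A ≥ 1`, `K ≥ 1`, `0 < μ ≤ 1` there is `c > 0` such that the inequality of Q1 holds, without the loss
`N^ε`, for all `q ≥ 2`, all `T ≤ N^A` and all coefficients bounded by `1` supported on the integers `β d^k`, where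
the pairs `(β, k)` run over any set `B` with `β ≤ N^(1-μ)`, `k ≤ K` and `∑_{(β,k) ∈ B} (N/β)^(1/k) ≤ N^(1/2+c)`,
and on any `N^(1/2)` further integers.
-/

namespace Pool.Agent.Results.MP_2a1f0e_nt.SparseMultiples

open Finset

/-- `D(t) = ∑_{N ≤ n ≤ 2N} b_n n^{it}` -/
noncomputable def D (N : ℕ) (b : ℕ → ℂ) (t : ℝ) : ℂ :=
  ∑ n ∈ Icc N (2 * N), b n * Complex.exp (Complex.I * (t : ℂ) * (Real.log (n : ℝ) : ℂ))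

/-- `n` is of the form `β d^k` with `(β, k) ∈ B` and an integer `d`, or an element of `E` -/
def Supp (B : Finset (ℕ × ℕ)) (E : Finset ℕ) (n : ℕ) : Prop :=
  n ∈ E ∨ ∃ p ∈ B, ∃ d : ℕ, n = p.1 * d ^ p.2

/-- the pairs `(β, k) ∈ B` satisfy `1 ≤ β ≤ N^(1-μ)`, `1 ≤ k ≤ K` and `∑ (N/β)^(1/k) ≤ N^(1/2+c)`, and `E` has
at most `N^(1/2)` elements -/
def Thin (N : ℕ) (μ c : ℝ) (K : ℕ) (B : Finset (ℕ × ℕ)) (E : Finset ℕ) : Prop :=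
  (∀ p ∈ B, 1 ≤ p.1 ∧ (p.1 : ℝ) ≤ (N : ℝ) ^ (1 - μ) ∧ 1 ≤ p.2 ∧ p.2 ≤ K) ∧
    ∑ p ∈ B, ((N : ℝ) / p.1) ^ ((1 : ℝ) / p.2) ≤ (N : ℝ) ^ (1 / 2 + c) ∧
    (E.card : ℝ) ≤ (N : ℝ) ^ (1 / 2 : ℝ)

open Pool.Agent.R516.MS in
open Pool.Agent.TH705.DL (ph) in
/-- Let `A ≥ 1`, `K ≥ 1`, `0 < μ ≤ 1`. There is `c > 0` such that for every `q ≥ 2` there is `C` with: for all
`T ≤ N^A` and all `|b_n| ≤ 1` supported in `[N, 2N]` on integers of the form `β d^k`, `(β, k) ∈ B`, and elements of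
`E`, where `B`, `E` satisfy `Thin`: `∑_{1 ≤ t ≤ T} |D(t)|^q ≤ C (N^q + T N^(q/2))`. -/
theorem result (A μ : ℝ) (K : ℕ) (hA : 1 ≤ A) (hμ : 0 < μ) (hμ1 : μ ≤ 1) (hK : 1 ≤ K) :
    ∃ c : ℝ, 0 < c ∧ ∀ q : ℝ, 2 ≤ q → ∃ C : ℝ, ∀ (N : ℕ) (B : Finset (ℕ × ℕ)) (E : Finset ℕ) (T : ℕ)
      (b : ℕ → ℂ), 1 ≤ N → Thin N μ c K B E → (T : ℝ) ≤ (N : ℝ) ^ A → (∀ n, ‖b n‖ ≤ 1) →
      (∀ n ∈ Icc N (2 * N), b n ≠ 0 → Supp B E n) →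
      ∑ t ∈ Icc 1 T, ‖D N b (t : ℝ)‖ ^ q ≤ C * ((N : ℝ) ^ q + T * (N : ℝ) ^ (q / 2)) := by
  obtain ⟨c, C0, hc0, hC0, h⟩ := onTwo A μ K hA hμ hμ1 hK
  refine ⟨c, hc0, ?_⟩
  intro q hq
  refine ⟨2 ^ q * (2 * C0) + (2 * C0) ^ (q / 2), ?_⟩
  intro N B E T b hN hBE hT hb hs
  obtain ⟨h1, h2, h3⟩ := hBE
  exact lqForm hC0 hq N T hN (fun t => ‖∑ n ∈ Icc N (2 * N), b n * ph t n‖) (fun _ => norm_nonneg _)
    (fun t => triv N hN b hb t)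
    (fun W hW hsep => h N B E hN h1 h2 h3 T W b hT hsep
      (fun t ht => ⟨(hW t ht).1, by linarith [(hW t ht).2]⟩) hs hb)

end Pool.Agent.Results.MP_2a1f0e_nt.SparseMultiples
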